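import Mathlib

/-!
Algebraic lemmas on symmetric bilinear maps of a commutative algebra.
-/

set_option autoImplicit false

namespace Pool.Agent.Lib.MP_cfa256_gt

open scoped TensorProduct

variable {K A : Type*} [Field K] [CommRing A] [Algebra K A]

/-- The algebraic form of the equations defining the connection at one point. -/
def NatEq (a : A →ₗ[K] K) (w : A) (G : A →ₗ[K] A →ₗ[K] A) : Prop :=
  (∀ X Y, G X Y = G Y X) ∧ (∀ X, G X 1 = 0) ∧
    ∀ X Y, G X (w * Y) - G Y (w * X) = a X • Y - a Y • X

/-- The algebraic form of the compatibility equation at one point. -/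
def StarEq (th : A →ₗ[K] K) (B : A → A → K) (G : A →ₗ[K] A →ₗ[K] A) : Prop :=
  ∀ X Y Z, B X (Y * Z) - th (G X Y * Z) - th (Y * G X Z) =
    (1 / 2 : K) * (B (X * Y) Z - B Z (X * Y)) + (1 / 2 : K) * (B (X * Z) Y - B Y (X * Z))

theorem necessity [CharZero K] [FiniteDimensional K A] (a th : A →ₗ[K] K) (w : A)
    (G : A →ₗ[K] A →ₗ[K] A) (B : A →ₗ[K] A →ₗ[K] K)
    (hnd : ∀ X, (∀ Y, th (X * Y) = 0) → X = 0)
    (hG : NatEq a w G) (hS : StarEq th (fun X Y => B X Y) G) (Z : A) (hZ : IsNilpotent Z) :
    a Z = 0 := by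
  obtain ⟨hsym, hone, hd⟩ := hG
  let psi : A →ₗ[K] Module.Dual K A := (LinearMap.mul K A).compr₂ th
  have hinj : Function.Injective psi := by
    rw [← LinearMap.ker_eq_bot, LinearMap.ker_eq_bot']
    intro X hX
    exact hnd X fun Y => LinearMap.congr_fun hX Y
  have hsurj : Function.Surjective psi :=
    (LinearMap.injective_iff_surjective_of_finrank_eq_finrank
      (Subspace.dual_finrank_eq).symm).mp hinj
  let eqv := LinearEquiv.ofBijective psi ⟨hinj, hsurj⟩
  let be : A →ₗ[K] A := eqv.symm.toLinearMap.comp B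
  have hbe : ∀ X Y, B X Y = th (be X * Y) := by
    intro X Y
    have : psi (be X) = B X := eqv.apply_symm_apply (B X)
    rw [← this]
    rfl
  let S : A → A → A := fun X Y =>
    G X Y + (1 / 2 : K) • (be (X * Y) - be X * Y - be Y * X)
  have hSsym : ∀ X Y, S X Y = S Y X := by
    intro X Y
    simp only [S]
    rw [hsym X Y, mul_comm X Y]
    congr 2
    ring
  have hS2 : ∀ X Y Z, th (S X Y * Z) + th (S X Z * Y) = 0 := by
    intro X Y Z
    have h := hS X Y Z
    simp only [hbe] at h
    simp only [S, add_mul, smul_mul_assoc, sub_mul, map_add, map_smul, map_sub, smul_eq_mul]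
    have e1 : be X * Y * Z = be X * (Y * Z) := by ring
    have e2 : be Y * X * Z = be Y * (X * Z) := by ring
    have e3 : be X * Z * Y = be X * (Y * Z) := by ring
    have e4 : be Z * X * Y = be Z * (X * Y) := by ring
    have e5 : G X Z * Y = Y * G X Z := by ring
    rw [e1, e2, e3, e4, e5]
    linear_combination -h
  have hS0 : ∀ X Y, S X Y = 0 := by
    intro X Y
    refine hnd _ fun Z => ?_
    have h1 := hS2 X Y Z
    have h2 := hS2 Z X Y
    have h3 := hS2 Y Z X
    rw [hSsym Z X] at h2
    rw [hSsym Y Z, hSsym Y X] at h3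
    linear_combination (1 / 2 : K) * (h1 - h2 + h3)
  let eta : A := be w + (2 * a 1) • (1 : A)
  have key : ∀ Y, be (w * Y) - w * be Y = eta * Y - (2 * a Y) • (1 : A) := by
    intro Y
    have h1 := hd 1 Y
    rw [hsym 1, hone, mul_one, hsym Y w] at h1
    have h2 := hS0 w Y
    simp only [S] at h2
    have h3 : be (w * Y) - be w * Y - be Y * w = (-2 : K) • G w Y := by
      have : (2 : K) • (G w Y + (1 / 2 : K) • (be (w * Y) - be w * Y - be Y * w)) = 0 := by
        rw [h2, smul_zero]
      rw [smul_add, smul_smul] at this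
      norm_num at this
      rw [neg_smul]
      linear_combination this
    have h4 : G w Y = a Y • (1 : A) - a 1 • Y := by linear_combination -h1
    rw [h4] at h3
    simp only [eta, add_mul, smul_mul_assoc, one_mul]
    rw [smul_sub, smul_smul, smul_smul, neg_mul, neg_mul, neg_smul, neg_smul] at h3
    linear_combination h3
  let L : A → Module.End K A := fun x => LinearMap.mulLeft K x
  have hop : be * (L w * L Z) - L w * (be * L Z) =
      L (eta * Z) - (2 : K) • ((a.comp (L Z)).smulRight (1 : A)) := by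
    ext Y
    simp only [L, LinearMap.sub_apply, Module.End.mul_apply, LinearMap.mulLeft_apply,
      LinearMap.smul_apply, LinearMap.smulRight_apply, LinearMap.comp_apply]
    rw [key (Z * Y), smul_smul, mul_assoc]
  have ht := congrArg (LinearMap.trace K A) hop
  have hc : L w * L Z = L Z * L w := by
    ext Y; simp only [L, Module.End.mul_apply, LinearMap.mulLeft_apply]; ring
  rw [map_sub, map_sub, map_smul, LinearMap.trace_smulRight, LinearMap.trace_mul_comm K (L w),
    mul_assoc, ← hc, sub_self] at ht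
  have hn : IsNilpotent (L (eta * Z)) := by
    have : IsNilpotent (eta * Z) := (Commute.all eta Z).isNilpotent_mul_left hZ
    exact this.map (Algebra.lmul K A)
  have h0 : LinearMap.trace K A (L (eta * Z)) = 0 :=
    (LinearMap.isNilpotent_trace_of_isNilpotent hn).eq_zero
  rw [h0] at ht
  simp only [L, LinearMap.comp_apply, LinearMap.mulLeft_apply, mul_one, smul_eq_mul] at ht
  linear_combination (1 / 2 : K) * ht

theorem uniqueness (a : A →ₗ[K] K) (w : A) (hw : Algebra.adjoin K {w} = ⊤)
    (G G' : A →ₗ[K] A →ₗ[K] A) (hG : NatEq a w G) (hG' : NatEq a w G') : G = G' := by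
  obtain ⟨hsym, hone, hd⟩ := hG
  obtain ⟨hsym', hone', hd'⟩ := hG'
  have key : ∀ Z ∈ Algebra.adjoin K {w}, ∀ X Y,
      G X (Z * Y) - G' X (Z * Y) = G (Z * X) Y - G' (Z * X) Y := by
    intro Z hZ
    induction hZ using Algebra.adjoin_induction with
    | mem x hx =>
      rw [Set.mem_singleton_iff] at hx
      subst hx
      intro X Y
      have h1 := hd X Y
      have h2 := hd' X Y
      rw [hsym (x * X), hsym' (x * X)]
      linear_combination h1 - h2
    | algebraMap c =>
      intro X Y
      simp only [← Algebra.smul_def, map_smul, LinearMap.smul_apply]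
    | add x y _ _ hx hy =>
      intro X Y
      simp only [add_mul, map_add, LinearMap.add_apply]
      linear_combination hx X Y + hy X Y
    | mul x y _ _ hx hy =>
      intro X Y
      rw [mul_assoc, hx, hy, ← mul_assoc, mul_comm y x]
  ext X Y
  have h := key Y (hw ▸ Algebra.mem_top) X 1
  rw [mul_one, hone, hone', sub_self, sub_eq_zero] at h
  exact h

theorem existence (a : A →ₗ[K] K) (w : A) (hw : Algebra.adjoin K {w} = ⊤) :
    ∃ G : A →ₗ[K] A →ₗ[K] A, NatEq a w G := by
  let D : A → A ⊗[K] A := fun Y => Y ⊗ₜ[K] (1 : A) - (1 : A) ⊗ₜ[K] Y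
  have hD : ∀ Y ∈ Algebra.adjoin K {w}, ∃ t : A ⊗[K] A, D w * t = D Y := by
    intro Y hY
    induction hY using Algebra.adjoin_induction with
    | mem x hx =>
      rw [Set.mem_singleton_iff] at hx
      exact ⟨1, by rw [hx, mul_one]⟩
    | algebraMap c =>
      refine ⟨0, ?_⟩
      simp only [D, Algebra.algebraMap_eq_smul_one, mul_zero]
      rw [← TensorProduct.smul_tmul', TensorProduct.tmul_smul, sub_self]
    | add x y _ _ hx hy =>
      obtain ⟨s, hs⟩ := hx
      obtain ⟨t, ht⟩ := hy
      refine ⟨s + t, ?_⟩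
      rw [mul_add, hs, ht]
      simp only [D, TensorProduct.add_tmul, TensorProduct.tmul_add]
      abel
    | mul x y _ _ hx hy =>
      obtain ⟨s, hs⟩ := hx
      obtain ⟨t, ht⟩ := hy
      refine ⟨s * (y ⊗ₜ[K] (1 : A)) + ((1 : A) ⊗ₜ[K] x) * t, ?_⟩
      rw [mul_add, ← mul_assoc, hs, mul_left_comm, ht]
      simp only [D, sub_mul, mul_sub, Algebra.TensorProduct.tmul_mul_tmul, mul_one, one_mul]
      abel
  choose! De hDe using hD
  have hDe' : ∀ Y, D w * De Y = D Y := fun Y => hDe Y (hw ▸ Algebra.mem_top)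
  let ev : A ⊗[K] A →ₗ[K] A := (TensorProduct.lid K A).toLinearMap.comp (a.rTensor A)
  have hev : ∀ X Y, ev (X ⊗ₜ[K] Y) = a X • Y := by
    intro X Y; simp [ev]
  let g : A → A → A := fun X Y => ev (D X * De Y)
  have hsym : ∀ X Y, g X Y = g Y X := by
    intro X Y
    simp only [g]
    rw [← hDe' X, ← hDe' Y]
    congr 1
    ring
  have hadd : ∀ X X' Y, g (X + X') Y = g X Y + g X' Y := by
    intro X X' Y
    simp only [g, D, TensorProduct.add_tmul, TensorProduct.tmul_add]
    rw [← map_add]
    congr 1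
    ring
  have hsmul : ∀ (c : K) X Y, g (c • X) Y = c • g X Y := by
    intro c X Y
    simp only [g, D]
    rw [← map_smul, ← TensorProduct.smul_tmul', TensorProduct.tmul_smul, ← smul_sub,
      smul_mul_assoc]
  refine ⟨LinearMap.mk₂ K g hadd hsmul (fun X Y Y' => by rw [hsym, hadd, hsym Y, hsym Y'])
    (fun c X Y => by rw [hsym, hsmul, hsym Y]), hsym, ?_, ?_⟩
  · intro X
    simp only [LinearMap.mk₂_apply]
    rw [hsym]
    simp [g, D]
  · intro X Y
    simp only [LinearMap.mk₂_apply]
    rw [hsym X, hsym Y]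
    have e1 : ∀ X Y, D (w * Y) * De X =
        D X * (Y ⊗ₜ[K] (1 : A)) + ((1 : A) ⊗ₜ[K] w) * (D w * De X * De Y) := by
      intro X Y
      have : D (w * Y) = D w * (Y ⊗ₜ[K] (1 : A)) + ((1 : A) ⊗ₜ[K] w) * D Y := by
        simp only [D, sub_mul, mul_sub, Algebra.TensorProduct.tmul_mul_tmul, mul_one, one_mul]
        abel
      rw [this, ← hDe' X, ← hDe' Y]
      ring
    simp only [g]
    rw [e1, e1, ← map_sub, ← hev, ← hev, ← map_sub]
    congr 1
    have e2 : D w * De Y * De X = D w * De X * De Y := by ring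
    rw [e2]
    simp only [D, sub_mul, Algebra.TensorProduct.tmul_mul_tmul, mul_one, one_mul, mul_comm X Y]
    abel

/-- The coboundary of a linear map. -/
noncomputable def cob (be : A →ₗ[K] A) : A →ₗ[K] A →ₗ[K] A :=
  (1 / 2 : K) • ((LinearMap.mul K A).compl₁₂ be LinearMap.id +
    (LinearMap.mul K A).compl₁₂ LinearMap.id be - (LinearMap.mul K A).compr₂ be)

theorem cob_apply (be : A →ₗ[K] A) (X Y : A) :
    cob be X Y = (1 / 2 : K) • (be X * Y + X * be Y - be (X * Y)) := by
  simp [cob]

theorem natEq_cob [CharZero K] (a : A →ₗ[K] K) (w eta : A) (be : A →ₗ[K] A) (h1 : be 1 = 0)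
    (h : ∀ Y, be (w * Y) - w * be Y = eta * Y - (2 * a Y) • (1 : A)) : NatEq a w (cob be) := by
  refine ⟨fun X Y => ?_, fun X => ?_, fun X Y => ?_⟩
  · rw [cob_apply, cob_apply, mul_comm Y X]
    congr 2
    ring
  · rw [cob_apply, h1]; simp
  · rw [cob_apply, cob_apply, ← smul_sub]
    have e1 : Y * (w * X) = X * (w * Y) := by ring
    have e2 : be X * (w * Y) + X * be (w * Y) - be (X * (w * Y)) -
        (be Y * (w * X) + Y * be (w * X) - be (Y * (w * X))) =
        (2 * a X) • Y - (2 * a Y) • X := by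
      rw [e1]
      have hX := h X
      have hY := h Y
      have f1 : (2 * a X) • Y = Y * ((2 * a X) • (1 : A)) := by simp
      have f2 : (2 * a Y) • X = X * ((2 * a Y) • (1 : A)) := by simp
      rw [f1, f2]
      linear_combination X * hY - Y * hX
    rw [e2, smul_sub, smul_smul, smul_smul]
    congr 2 <;> ring

theorem starEq_cob [CharZero K] (th : A →ₗ[K] K) (be : A →ₗ[K] A) :
    StarEq th (fun X Y => th (be X * Y)) (cob be) := by
  intro X Y Z
  simp only [cob_apply, smul_mul_assoc, mul_smul_comm, map_smul, smul_eq_mul, add_mul, sub_mul,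
    mul_add, mul_sub, map_add, map_sub]
  have e1 : be X * Y * Z = be X * (Y * Z) := by ring
  have e2 : X * be Y * Z = be Y * (X * Z) := by ring
  have e3 : Y * (be X * Z) = be X * (Y * Z) := by ring
  have e4 : Y * (X * be Z) = be Z * (X * Y) := by ring
  have e5 : Y * be (X * Z) = be (X * Z) * Y := by ring
  rw [e1, e2, e3, e4, e5]
  ring

end Pool.Agent.Lib.MP_cfa256_gt
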