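import Mathlib

/-!
Regular F-manifolds in David-Hertling coordinates.  Points and tangent vectors are functions on
the index set of pairs (block, position in the block), positions being counted from zero.
Tensor fields are evaluated on vector fields with constant components.
-/

set_option autoImplicit false

namespace Pool.Agent.Lib.MP_cfa256_gt

variable {K : Type} [RCLike K] {r : ℕ} {m : Fin r → ℕ}

/-- Indices of the coordinates: a block and a position in it. -/
abbrev Idx (m : Fin r → ℕ) : Type := Σ a : Fin r, Fin (m a)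

/-- The product of vectors: truncated convolution in each block. -/
def circ (X Y : Idx m → K) : Idx m → K := fun i =>
  ∑ j : Fin (m i.1), ∑ k : Fin (m i.1),
    if (j : ℕ) + (k : ℕ) = (i.2 : ℕ) then X ⟨i.1, j⟩ * Y ⟨i.1, k⟩ else 0

/-- The unit vector field. -/
def unitField : Idx m → K := fun i => if (i.2 : ℕ) = 0 then 1 else 0

/-- Multiplication by the Euler field at the point `u` has one Jordan block for each eigenvalue:
every eigenspace is at most one dimensional. -/
def Regular (u : Idx m → K) : Prop :=
  ∀ (mu : K) (Y Z : Idx m → K), circ u Y = mu • Y → circ u Z = mu • Z → Y ≠ 0 →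
    ∃ t : K, Z = t • Y

/-- The linear function with coefficients `c`. -/
def lin (c u : Idx m → K) : K := ∑ k, c k * u k

/-- The endomorphism field of multiplication by `E - a0 e`. -/
def shiftedEuler (c u Y : Idx m → K) : Idx m → K := circ (u - lin c u • unitField) Y

/-- Covariant derivative of an endomorphism field. -/
noncomputable def covEnd (G : (Idx m → K) → (Idx m → K) →ₗ[K] (Idx m → K) →ₗ[K] (Idx m → K))
    (A : (Idx m → K) → (Idx m → K) → (Idx m → K)) (u X Y : Idx m → K) : Idx m → K :=
  fderiv K (fun v => A v Y) u X + G u X (A u Y) - A u (G u X Y)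

/-- At `u` the connection with Christoffel symbols `G` is torsion free, the unit is parallel and
the exterior covariant derivative of multiplication by `E - a0 e` vanishes. -/
def IsNabla (c : Idx m → K)
    (G : (Idx m → K) → (Idx m → K) →ₗ[K] (Idx m → K) →ₗ[K] (Idx m → K)) (u : Idx m → K) : Prop :=
  (∀ X Y, G u X Y = G u Y X) ∧ (∀ X, G u X unitField = 0) ∧
    ∀ X Y, covEnd G (shiftedEuler c) u X Y - covEnd G (shiftedEuler c) u Y X = 0

/-- A non-degenerate symmetric invariant bilinear form. -/
def IsInvMetric (b : (Idx m → K) →ₗ[K] (Idx m → K) →ₗ[K] K) : Prop :=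
  (∀ X Y, b X Y = b Y X) ∧ (∀ X, (∀ Y, b X Y = 0) → X = 0) ∧
    ∀ X Y Z, b (circ X Y) Z = b (circ X Z) Y

/-- Covariant derivative of a field of bilinear forms. -/
noncomputable def covMetric (G : (Idx m → K) → (Idx m → K) →ₗ[K] (Idx m → K) →ₗ[K] (Idx m → K))
    (g : (Idx m → K) → (Idx m → K) →ₗ[K] (Idx m → K) →ₗ[K] K) (u X Y Z : Idx m → K) : K :=
  fderiv K (fun v => g v Y Z) u X - g u (G u X Y) Z - g u Y (G u X Z)

/-- Exterior derivative of the counit. -/
noncomputable def dTheta (g : (Idx m → K) → (Idx m → K) →ₗ[K] (Idx m → K) →ₗ[K] K)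
    (u X Y : Idx m → K) : K :=
  fderiv K (fun v => g v unitField Y) u X - fderiv K (fun v => g v unitField X) u Y

/-- The compatibility equation at `u`. -/
def Star (G : (Idx m → K) → (Idx m → K) →ₗ[K] (Idx m → K) →ₗ[K] (Idx m → K))
    (g : (Idx m → K) → (Idx m → K) →ₗ[K] (Idx m → K) →ₗ[K] K) (u : Idx m → K) : Prop :=
  ∀ X Y Z, covMetric G g u X Y Z =
    (1 / 2 : K) * dTheta g u (circ X Y) Z + (1 / 2 : K) * dTheta g u (circ X Z) Y

end Pool.Agent.Lib.MP_cfa256_gt
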