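import Mathlib
import Pool.Agent.Lib.MP_cfa256_gt.Defs

/-!
The tangent algebra in David-Hertling coordinates as a commutative Banach algebra.
-/

set_option autoImplicit false

namespace Pool.Agent.Lib.MP_cfa256_gt

open Polynomial

variable {K : Type} [RCLike K] {r : ℕ} {m : Fin r → ℕ}

theorem sum_fin_antidiag (n i : ℕ) (hi : i < n) (F : ℕ → ℕ → K) :
    (∑ j : Fin n, ∑ k : Fin n, if (j : ℕ) + (k : ℕ) = i then F j k else 0) =
      ∑ p ∈ Finset.HasAntidiagonal.antidiagonal i, F p.1 p.2 := by
  rw [Fin.sum_univ_eq_sum_range (fun j => ∑ k : Fin n, if j + (k : ℕ) = i then F j k else 0) n]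
  simp only [fun j => Fin.sum_univ_eq_sum_range (fun k => if j + k = i then F j k else 0) n]
  rw [← Finset.sum_product', ← Finset.sum_filter]
  refine Finset.sum_congr ?_ fun _ _ => rfl
  ext p
  simp only [Finset.mem_filter, Finset.mem_product, Finset.mem_range,
    Finset.HasAntidiagonal.mem_antidiagonal]
  omega

/-- Truncation of a family of polynomials. -/
def trunc (m : Fin r → ℕ) (f : Fin r → K[X]) : Idx m → K := fun i => (f i.1).coeff i.2

/-- The family of polynomials with given coefficients. -/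
noncomputable def lift (X : Idx m → K) : Fin r → K[X] :=
  fun a => ∑ j : Fin (m a), monomial j (X ⟨a, j⟩)

theorem coeff_lift (X : Idx m → K) (a : Fin r) (j : Fin (m a)) :
    (lift X a).coeff j = X ⟨a, j⟩ := by
  unfold lift
  rw [finsetSum_coeff, Finset.sum_eq_single j]
  · simp
  · intro b _ hb
    rw [coeff_monomial, if_neg]
    exact fun h => hb (Fin.ext h)
  · simp

theorem trunc_lift (X : Idx m → K) : trunc m (lift X) = X := by
  funext i
  exact coeff_lift X i.1 i.2

theorem trunc_mul (f g : Fin r → K[X]) : trunc m (f * g) = circ (trunc m f) (trunc m g) := by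
  funext i
  simp only [trunc, circ, Pi.mul_apply, coeff_mul]
  exact (sum_fin_antidiag _ _ i.2.2 (fun j k => (f i.1).coeff j * (g i.1).coeff k)).symm

theorem trunc_one : trunc m (1 : Fin r → K[X]) = unitField := by
  funext i
  simp [trunc, unitField, coeff_one]

theorem trunc_add (f g : Fin r → K[X]) : trunc m (f + g) = trunc m f + trunc m g := by
  funext i
  simp [trunc]

theorem trunc_smul (c : K) (f : Fin r → K[X]) : trunc m (c • f) = c • trunc m f := by
  funext i
  simp [trunc]

theorem trunc_surj (X : Idx m → K) : ∃ f, trunc m f = X := ⟨lift X, trunc_lift X⟩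

theorem circ_comm (X Y : Idx m → K) : circ X Y = circ Y X := by
  obtain ⟨f, rfl⟩ := trunc_surj X
  obtain ⟨g, rfl⟩ := trunc_surj Y
  rw [← trunc_mul, ← trunc_mul, mul_comm]

theorem circ_assoc (X Y Z : Idx m → K) : circ (circ X Y) Z = circ X (circ Y Z) := by
  obtain ⟨f, rfl⟩ := trunc_surj X
  obtain ⟨g, rfl⟩ := trunc_surj Y
  obtain ⟨h, rfl⟩ := trunc_surj Z
  simp only [← trunc_mul, mul_assoc]

theorem circ_unit (X : Idx m → K) : circ X unitField = X := by
  obtain ⟨f, rfl⟩ := trunc_surj X
  rw [← trunc_one, ← trunc_mul, mul_one]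

theorem circ_add (X Y Z : Idx m → K) : circ X (Y + Z) = circ X Y + circ X Z := by
  obtain ⟨f, rfl⟩ := trunc_surj X
  obtain ⟨g, rfl⟩ := trunc_surj Y
  obtain ⟨h, rfl⟩ := trunc_surj Z
  simp only [← trunc_mul, ← trunc_add, mul_add]

theorem circ_smul (c : K) (X Y : Idx m → K) : circ X (c • Y) = c • circ X Y := by
  obtain ⟨f, rfl⟩ := trunc_surj X
  obtain ⟨g, rfl⟩ := trunc_surj Y
  simp only [← trunc_mul, ← trunc_smul, mul_smul_comm]

theorem circ_zero (X : Idx m → K) : circ X 0 = 0 := by
  have := circ_smul (0 : K) X 0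
  simpa using this

theorem sum_norm_circ_le (X Y : Idx m → K) :
    ∑ i, ‖circ X Y i‖ ≤ (∑ i, ‖X i‖) * ∑ i, ‖Y i‖ := by
  simp only [Fintype.sum_sigma]
  have h1 : ∀ a : Fin r, ∑ i : Fin (m a), ‖circ X Y ⟨a, i⟩‖ ≤
      (∑ j : Fin (m a), ‖X ⟨a, j⟩‖) * ∑ k : Fin (m a), ‖Y ⟨a, k⟩‖ := by
    intro a
    calc ∑ i : Fin (m a), ‖circ X Y ⟨a, i⟩‖ ≤ ∑ i : Fin (m a), ∑ j : Fin (m a), ∑ k : Fin (m a),
          (if (j : ℕ) + (k : ℕ) = (i : ℕ) then ‖X ⟨a, j⟩‖ * ‖Y ⟨a, k⟩‖ else 0) := by
          refine Finset.sum_le_sum fun i _ => (norm_sum_le _ _).trans ?_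
          refine Finset.sum_le_sum fun j _ => (norm_sum_le _ _).trans ?_
          refine Finset.sum_le_sum fun k _ => ?_
          split_ifs <;> simp
      _ ≤ ∑ j : Fin (m a), ∑ k : Fin (m a), ‖X ⟨a, j⟩‖ * ‖Y ⟨a, k⟩‖ := by
          rw [Finset.sum_comm]
          refine Finset.sum_le_sum fun j _ => ?_
          rw [Finset.sum_comm]
          refine Finset.sum_le_sum fun k _ => ?_
          by_cases h : (j : ℕ) + (k : ℕ) < m a
          · rw [Finset.sum_eq_single (⟨j + k, h⟩ : Fin (m a))]
            · simp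
            · intro b _ hb
              rw [if_neg]
              exact fun h' => hb (Fin.ext h'.symm)
            · simp
          · rw [Finset.sum_eq_zero]
            · positivity
            · intro b _
              rw [if_neg]
              have := b.2
              omega
      _ = _ := by rw [Finset.sum_mul_sum]
  calc ∑ a, ∑ i : Fin (m a), ‖circ X Y ⟨a, i⟩‖
      ≤ ∑ a, (∑ j : Fin (m a), ‖X ⟨a, j⟩‖) * ∑ b, ∑ k : Fin (m b), ‖Y ⟨b, k⟩‖ := by
        refine Finset.sum_le_sum fun a _ => (h1 a).trans ?_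
        refine mul_le_mul_of_nonneg_left ?_ (Finset.sum_nonneg fun _ _ => norm_nonneg _)
        exact Finset.single_le_sum (f := fun b => ∑ k : Fin (m b), ‖Y ⟨b, k⟩‖)
          (fun b _ => Finset.sum_nonneg fun _ _ => norm_nonneg _) (Finset.mem_univ a)
    _ = _ := by rw [Finset.sum_mul]

/-- The tangent algebra. -/
def Alg (K : Type) [RCLike K] (m : Fin r → ℕ) : Type := PiLp 1 (fun _ : Idx m => K)

noncomputable instance instNormedCommRing : NormedCommRing (Alg K m) :=
  { (inferInstance : NormedAddCommGroup (PiLp 1 (fun _ : Idx m => K))) with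
    mul := fun X Y => WithLp.toLp 1 (circ X.ofLp Y.ofLp)
    one := WithLp.toLp 1 unitField
    mul_assoc := fun X Y Z => congrArg (WithLp.toLp 1) (circ_assoc _ _ _)
    one_mul := fun X => congrArg (WithLp.toLp 1) ((circ_comm _ _).trans (circ_unit _))
    mul_one := fun X => congrArg (WithLp.toLp 1) (circ_unit _)
    left_distrib := fun X Y Z => congrArg (WithLp.toLp 1) (circ_add _ _ _)
    right_distrib := fun X Y Z => congrArg (WithLp.toLp 1)
      ((circ_comm _ _).trans ((circ_add _ _ _).trans
        (congrArg₂ (· + ·) (circ_comm _ _) (circ_comm _ _))))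
    zero_mul := fun X => congrArg (WithLp.toLp 1) ((circ_comm _ _).trans (circ_zero _))
    mul_zero := fun X => congrArg (WithLp.toLp 1) (circ_zero _)
    mul_comm := fun X Y => congrArg (WithLp.toLp 1) (circ_comm _ _)
    norm_mul_le := fun X Y => by
      have h := sum_norm_circ_le (WithLp.ofLp X) (WithLp.ofLp Y)
      have e1 := PiLp.norm_eq_of_L1 (β := fun _ : Idx m => K) X
      have e2 := PiLp.norm_eq_of_L1 (β := fun _ : Idx m => K) Y
      have e3 := PiLp.norm_eq_of_L1 (β := fun _ : Idx m => K)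
        (WithLp.toLp 1 (circ X.ofLp Y.ofLp))
      exact e3.trans_le (h.trans_eq (congrArg₂ (· * ·) e1.symm e2.symm)) }

noncomputable abbrev normedSpaceAlg : NormedSpace K (Alg K m) :=
  (inferInstance : NormedSpace K (PiLp 1 (fun _ : Idx m => K)))

noncomputable instance instNormedAlgebra : NormedAlgebra K (Alg K m) :=
  { @Algebra.ofModule K (Alg K m) _ _ normedSpaceAlg.toModule
      (fun c _ _ => congrArg (WithLp.toLp 1)
        ((circ_comm _ _).trans ((circ_smul c _ _).trans (congrArg (c • ·) (circ_comm _ _)))))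
      (fun c _ _ => congrArg (WithLp.toLp 1) (circ_smul c _ _)) with
    norm_smul_le := normedSpaceAlg.norm_smul_le }

/-- The identification of the coordinate space with the algebra. -/
noncomputable def toA : (Idx m → K) ≃L[K] Alg K m :=
  (PiLp.continuousLinearEquiv 1 K (fun _ : Idx m => K)).symm

instance instFinite : FiniteDimensional K (Alg K m) :=
  (toA (K := K) (m := m)).toLinearEquiv.finiteDimensional

instance instComplete : CompleteSpace (Alg K m) := FiniteDimensional.complete K _

theorem toA_circ (X Y : Idx m → K) : toA (circ X Y) = toA X * toA Y := rfl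

theorem toA_unit : toA (unitField : Idx m → K) = 1 := rfl

/-- Truncation as an algebra homomorphism. -/
noncomputable def rho (m : Fin r → ℕ) : (Fin r → K[X]) →ₐ[K] Alg K m :=
  AlgHom.ofLinearMap
    { toFun := fun f => toA (trunc m f)
      map_add' := fun f g => by rw [trunc_add, map_add]
      map_smul' := fun c f => by rw [trunc_smul, map_smul]; rfl }
    (by change toA (trunc m 1) = 1; rw [trunc_one, toA_unit])
    (fun f g => by change toA (trunc m (f * g)) = _; rw [trunc_mul, toA_circ]; rfl)

theorem rho_apply (f : Fin r → K[X]) : rho m f = toA (trunc m f) := rfl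

theorem rho_lift (X : Idx m → K) : rho m (lift X) = toA X := by
  rw [rho_apply, trunc_lift]

theorem rho_eq_zero_iff (f : Fin r → K[X]) : rho m f = 0 ↔ ∀ a, X ^ m a ∣ f a := by
  rw [rho_apply, map_eq_zero_iff _ toA.injective]
  simp only [X_pow_dvd_iff]
  constructor
  · intro h a d hd
    exact congrFun h ⟨a, ⟨d, hd⟩⟩
  · intro h
    funext i
    exact h i.1 i.2 i.2.2

end Pool.Agent.Lib.MP_cfa256_gt
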