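import Mathlib
import Pool.Agent.Lib.MP_cfa256_gt.Alg

/-!
Structure of the tangent algebra: regular points, generators, units and a Frobenius form.
-/

set_option autoImplicit false

namespace Pool.Agent.Lib.MP_cfa256_gt

open Polynomial Filter Topology

variable {K : Type} [RCLike K] {r : ℕ} {m : Fin r → ℕ}

/-- The index of the main variable of a block. -/
abbrev z0 (hm : ∀ a, 0 < m a) (a : Fin r) : Idx m := ⟨a, ⟨0, hm a⟩⟩

theorem coeff_lift_zero (hm : ∀ a, 0 < m a) (u : Idx m → K) (a : Fin r) :
    (lift u a).coeff 0 = u (z0 hm a) := coeff_lift u a ⟨0, hm a⟩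

/-- Regularity in coordinates. -/
def ExplReg (hm : ∀ a, 0 < m a) (u : Idx m → K) : Prop :=
  (∀ a b, a ≠ b → u (z0 hm a) ≠ u (z0 hm b)) ∧ ∀ i : Idx m, (i.2 : ℕ) = 1 → u i ≠ 0

theorem eigen_single (u : Idx m → K) (a : Fin r) (k d : ℕ) (hkd : d + k = m a) (mu : K)
    (h : X ^ d ∣ lift u a - C mu) :
    circ u (trunc m (Pi.single a (X ^ k))) = mu • trunc m (Pi.single a (X ^ k)) := by
  apply (toA (K := K) (m := m)).injective
  rw [toA_circ, ← rho_lift, map_smul, ← rho_apply, ← map_mul, ← map_smul, ← sub_eq_zero,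
    ← map_sub, rho_eq_zero_iff]
  intro b
  by_cases hb : b = a
  · subst hb
    simp only [Pi.sub_apply, Pi.mul_apply, Pi.smul_apply, Pi.single_eq_same]
    rw [← hkd, pow_add, smul_eq_C_mul, ← sub_mul]
    exact mul_dvd_mul_right h _
  · simp [hb]

theorem trunc_single_self (a : Fin r) (j : Fin (m a)) :
    trunc m (Pi.single a (X ^ (j : ℕ) : K[X])) ⟨a, j⟩ = 1 := by
  simp [trunc]

theorem explReg_of_regular (hm : ∀ a, 0 < m a) (u : Idx m → K) (h : Regular u) :
    ExplReg hm u := by
  have hs : ∀ a, circ u (trunc m (Pi.single a (X ^ (m a - 1)))) =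
      u (z0 hm a) • trunc m (Pi.single a (X ^ (m a - 1))) := by
    intro a
    refine eigen_single u a _ 1 (by have := hm a; omega) _ ?_
    rw [pow_one, X_dvd_iff, coeff_sub, coeff_lift_zero hm, coeff_C_zero, sub_self]
  have hne : ∀ a, trunc m (Pi.single a (X ^ (m a - 1) : K[X])) ≠ 0 := by
    intro a h0
    have := trunc_single_self (K := K) (m := m) a ⟨m a - 1, by have := hm a; omega⟩
    rw [h0] at this
    simp at this
  constructor
  · intro a b hab heq
    obtain ⟨t, ht⟩ := h _ _ _ (hs a) (heq ▸ hs b) (hne a)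
    have h1 := congrFun ht ⟨b, ⟨m b - 1, by have := hm b; omega⟩⟩
    rw [trunc_single_self b ⟨m b - 1, by have := hm b; omega⟩] at h1
    simp [trunc, Ne.symm hab] at h1
  · rintro ⟨a, i⟩ hi h0
    simp only at hi
    have h2 : 2 ≤ m a := by have := i.2; omega
    have he := eigen_single u a (m a - 2) 2 (by omega) (u (z0 hm a)) (by
      rw [X_pow_dvd_iff]
      intro d hd
      interval_cases d
      · rw [coeff_sub, coeff_lift_zero hm, coeff_C_zero, sub_self]
      · rw [coeff_sub, coeff_C_of_ne_zero one_ne_zero, sub_zero, ← hi, coeff_lift, h0])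
    obtain ⟨t, ht⟩ := h _ _ _ (hs a) he (hne a)
    have h1 := congrFun ht ⟨a, ⟨m a - 2, by omega⟩⟩
    rw [trunc_single_self a ⟨m a - 2, by omega⟩] at h1
    have h3 : m a - 2 ≠ m a - 1 := by omega
    simp [trunc, coeff_X_pow, h3] at h1

theorem explReg_eventually (hm : ∀ a, 0 < m a) (p : Idx m → K) (h : ExplReg hm p) :
    ∀ᶠ u in 𝓝 p, ExplReg hm u := by
  refine Filter.Eventually.and ?_ ?_
  · simp only [eventually_all]
    intro a b hab
    exact (isOpen_ne_fun (continuous_apply (z0 hm a)) (continuous_apply (z0 hm b))).mem_nhds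
      (h.1 a b hab)
  · simp only [eventually_all]
    intro i hi
    exact (isOpen_ne_fun (continuous_apply i) continuous_const).mem_nhds (h.2 i hi)

theorem rho_single_add (a : Fin r) (f g : K[X]) :
    rho m (Pi.single a (f + g)) = rho m (Pi.single a f) + rho m (Pi.single a g) := by
  rw [Pi.single_add, map_add]

theorem adjoin_eq_top (hm : ∀ a, 0 < m a) (u : Idx m → K) (h : ExplReg hm u) :
    Algebra.adjoin K {toA u} = ⊤ := by
  set S := Algebra.adjoin K {toA u} with hS
  have hU : toA u ∈ S := Algebra.self_mem_adjoin_singleton K _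
  have key : ∀ (a : Fin r) (d i : ℕ), m a ≤ i + d → ∀ f : K[X],
      rho m (Pi.single a (X ^ i * f)) ∈ S := by
    intro a d
    induction d with
    | zero =>
      intro i hi f
      have : rho m (Pi.single a (X ^ i * f)) = 0 := by
        rw [rho_eq_zero_iff]
        intro b
        by_cases hb : b = a
        · subst hb
          simp only [Pi.single_eq_same]
          exact Dvd.dvd.mul_right (pow_dvd_pow _ hi) _
        · simp [hb]
      rw [this]; exact S.zero_mem
    | succ d ih =>
      intro i hi
      by_cases hi' : m a ≤ i + d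
      · exact ih i hi'
      have split : ∀ f : K[X], rho m (Pi.single a (X ^ i * f)) =
          f.coeff 0 • rho m (Pi.single a (X ^ i)) +
            rho m (Pi.single a (X ^ (i + 1) * f.divX)) := by
        intro f
        rw [← map_smul, ← Pi.single_smul', ← rho_single_add]
        congr 2
        conv_lhs => rw [← X_mul_divX_add f]
        rw [smul_eq_C_mul]
        ring
      have hmem : rho m (Pi.single a (X ^ i)) ∈ S := by
        let F : Fin r → K[X] := (lift u - algebraMap K _ (u (z0 hm a))) ^ i *
          ∏ b ∈ Finset.univ.erase a, (lift u - algebraMap K _ (u (z0 hm b))) ^ m b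
        have hF : rho m F ∈ S := by
          simp only [F, map_mul, map_pow, map_prod, map_sub, rho_lift, AlgHom.commutes]
          refine S.mul_mem (S.pow_mem (S.sub_mem hU (S.algebraMap_mem _)) _) ?_
          exact S.prod_mem fun b _ => S.pow_mem (S.sub_mem hU (S.algebraMap_mem _)) _
        let q : K[X] := (lift u a).divX ^ i *
          ∏ b ∈ Finset.univ.erase a, (lift u a - C (u (z0 hm b))) ^ m b
        have hFa : F a = X ^ i * q := by
          simp only [F, q, Pi.mul_apply, Pi.pow_apply, Pi.sub_apply, Finset.prod_apply,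
            Pi.algebraMap_apply, algebraMap_eq]
          have : lift u a - C (u (z0 hm a)) = X * (lift u a).divX := by
            rw [← coeff_lift_zero hm u a, sub_eq_iff_eq_add, X_mul_divX_add]
          rw [this, mul_pow, mul_assoc]
        have hF2 : rho m F = rho m (Pi.single a (X ^ i * q)) := by
          rw [← sub_eq_zero, ← map_sub, rho_eq_zero_iff]
          intro b
          by_cases hb : b = a
          · subst hb
            simp [hFa]
          · simp only [Pi.sub_apply, Pi.single_eq_of_ne hb, sub_zero, F, Pi.mul_apply,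
              Finset.prod_apply, Pi.pow_apply, Pi.algebraMap_apply, algebraMap_eq]
            refine Dvd.dvd.mul_left ?_ _
            refine Dvd.dvd.trans ?_ (Finset.dvd_prod_of_mem _
              (Finset.mem_erase.mpr ⟨hb, Finset.mem_univ b⟩))
            refine pow_dvd_pow_of_dvd ?_ _
            rw [X_dvd_iff, coeff_sub, coeff_lift_zero hm, coeff_C_zero, sub_self]
        have hq : q.coeff 0 ≠ 0 := by
          simp only [q, coeff_zero_eq_eval_zero, eval_mul, eval_pow, eval_prod, eval_sub, eval_C]
          refine mul_ne_zero ?_ (Finset.prod_ne_zero_iff.mpr fun b hb => pow_ne_zero _ ?_)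
          · rcases Nat.eq_zero_or_pos i with rfl | hpos
            · simp
            · refine pow_ne_zero _ ?_
              have h1 : 1 < m a := by omega
              rw [← coeff_zero_eq_eval_zero, coeff_divX]
              have := coeff_lift u a ⟨1, h1⟩
              simp only at this
              rw [zero_add, this]
              exact h.2 ⟨a, ⟨1, h1⟩⟩ rfl
          · rw [← coeff_zero_eq_eval_zero, coeff_lift_zero hm, sub_ne_zero]
            exact h.1 a b (Ne.symm (Finset.mem_erase.mp hb).1)
        have h3 := S.sub_mem hF (ih (i + 1) (by omega) q.divX)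
        rw [hF2, split, add_sub_cancel_right] at h3
        have h4 := S.smul_mem h3 (q.coeff 0)⁻¹
        rwa [smul_smul, inv_mul_cancel₀ hq, one_smul] at h4
      intro f
      rw [split]
      exact S.add_mem (S.smul_mem hmem _) (ih (i + 1) (by omega) _)
  rw [eq_top_iff]
  intro Y _
  have e : Y = ∑ a, rho m (Pi.single a (X ^ 0 * lift (toA.symm Y) a)) := by
    simp only [pow_zero, one_mul]
    rw [← map_sum, Finset.univ_sum_single, rho_lift, ContinuousLinearEquiv.apply_symm_apply]
  rw [e]
  exact S.sum_mem fun a _ => key a (m a) 0 (by omega) _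

theorem adjoin_sub_eq_top (hm : ∀ a, 0 < m a) (u : Idx m → K) (h : ExplReg hm u) (t : K) :
    Algebra.adjoin K {toA (u - t • unitField)} = ⊤ := by
  rw [eq_top_iff, ← adjoin_eq_top hm u h, Algebra.adjoin_le_iff, Set.singleton_subset_iff,
    SetLike.mem_coe]
  have e : toA u = toA (u - t • unitField) + algebraMap K _ t := by
    rw [map_sub, map_smul, toA_unit, Algebra.algebraMap_eq_smul_one, sub_add_cancel]
  rw [e]
  exact Subalgebra.add_mem _ (Algebra.self_mem_adjoin_singleton K _) (Subalgebra.algebraMap_mem _ _)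

theorem isNilpotent_rho (f : Fin r → K[X]) (h : ∀ a, (f a).coeff 0 = 0) :
    IsNilpotent (rho m f) := by
  refine ⟨∑ a, m a, ?_⟩
  rw [← map_pow, rho_eq_zero_iff]
  intro a
  rw [Pi.pow_apply]
  refine (pow_dvd_pow _ (Finset.single_le_sum (f := m) (fun _ _ => Nat.zero_le _)
    (Finset.mem_univ a))).trans (pow_dvd_pow_of_dvd (X_dvd_iff.mpr (h a)) _)

theorem isUnit_rho (f : Fin r → K[X]) (h : ∀ a, (f a).coeff 0 ≠ 0) : IsUnit (rho m f) := by
  have e : f = (fun a => f a - C ((f a).coeff 0)) + fun a => C ((f a).coeff 0) := by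
    funext a; simp
  rw [e, map_add]
  refine IsNilpotent.isUnit_add_right_of_commute (isNilpotent_rho _ fun a => by simp) ?_
    (Commute.all _ _)
  refine IsUnit.of_mul_eq_one (rho m fun a => C ((f a).coeff 0)⁻¹) ?_
  rw [← map_mul, ← map_one (rho m)]
  congr 1
  funext a
  simp only [Pi.mul_apply, Pi.one_apply]
  rw [← C_mul, mul_inv_cancel₀ (h a), C_1]

/-- The sum of the top coefficients. -/
noncomputable def tau (hm : ∀ a, 0 < m a) : Alg K m →L[K] K :=
  (∑ a : Fin r, (ContinuousLinearMap.proj (⟨a, ⟨m a - 1, Nat.sub_lt (hm a) one_pos⟩⟩ : Idx m) :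
    (Idx m → K) →L[K] K)).comp (toA (K := K) (m := m)).symm.toContinuousLinearMap

theorem tau_rho (hm : ∀ a, 0 < m a) (f : Fin r → K[X]) :
    tau hm (rho m f) = ∑ a, (f a).coeff (m a - 1) := by
  simp [tau, rho_apply, trunc]

theorem tau_nondeg (hm : ∀ a, 0 < m a) (Z : Alg K m) (h : ∀ Y, tau hm (Z * Y) = 0) : Z = 0 := by
  obtain ⟨z, rfl⟩ := (toA (K := K) (m := m)).surjective Z
  rw [map_eq_zero_iff _ toA.injective]
  funext ⟨a, i⟩
  have h1 := h (rho m (Pi.single a (X ^ (m a - 1 - i))))
  rw [← rho_lift, ← map_mul, tau_rho, Finset.sum_eq_single a] at h1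
  · simp only [Pi.mul_apply, Pi.single_eq_same] at h1
    have e : m a - 1 = i + (m a - 1 - i) := by have := i.2; omega
    rw [e, Nat.add_sub_cancel_left, coeff_mul_X_pow, coeff_lift] at h1
    exact h1
  · intro b _ hb
    simp [hb]
  · simp

end Pool.Agent.Lib.MP_cfa256_gt
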