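import Mathlib
import Pool.Agent.Lib.MP_cfa256_gt.Struct

/-!
The explicit closed algebra valued one form attached to a linear function of the main variables.
-/

set_option autoImplicit false

namespace Pool.Agent.Lib.MP_cfa256_gt

open Polynomial

variable {K : Type} [RCLike K] {r : ℕ} {m : Fin r → ℕ}

noncomputable def liftL : (Idx m → K) →ₗ[K] (Fin r → K[X]) where
  toFun := lift
  map_add' X Y := by
    funext a
    simp [lift, Finset.sum_add_distrib]
  map_smul' c X := by
    funext a
    simp [lift, Finset.smul_sum, smul_monomial]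

noncomputable def derL : (Fin r → K[X]) →ₗ[K] (Fin r → K[X]) where
  toFun f := fun a => derivative (f a)
  map_add' f g := by funext a; simp
  map_smul' c f := by funext a; simp

noncomputable def divL : (Fin r → K[X]) →ₗ[K] (Fin r → K[X]) where
  toFun f := fun a => divX (f a)
  map_add' f g := by funext a; simp [divX_add]
  map_smul' c f := by
    funext a
    ext n
    simp [coeff_divX]

noncomputable def Pl : (Idx m → K) →ₗ[K] Alg K m := (rho m).toLinearMap ∘ₗ derL ∘ₗ liftL

noncomputable def Ql : (Idx m → K) →ₗ[K] Alg K m := (rho m).toLinearMap ∘ₗ divL ∘ₗ liftL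

theorem Pl_apply (Y : Idx m → K) : Pl Y = rho m (fun a => derivative (lift Y a)) := rfl

theorem Ql_apply (Y : Idx m → K) : Ql Y = rho m (fun a => divX (lift Y a)) := rfl

/-- locally constant elements -/
noncomputable def cst (m : Fin r → ℕ) (t : Fin r → K) : Alg K m := rho m (fun a => C (t a))

/-- idempotents -/
noncomputable def idem (m : Fin r → ℕ) (b : Fin r) : Alg K m := rho m (Pi.single b 1)

/-- socle element -/
noncomputable def soc (m : Fin r → ℕ) : Alg K m := rho m (fun a => X ^ (m a - 1))

noncomputable def Rl (hm : ∀ a, 0 < m a) (b : Fin r) : (Idx m → K) →ₗ[K] Alg K m where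
  toFun Y := (1 - idem m b) * (toA Y - Y (z0 hm b) • (1 : Alg K m))
  map_add' X Y := by
    simp only [map_add, Pi.add_apply, add_smul]
    ring
  map_smul' c X := by
    simp only [map_smul, Pi.smul_apply, smul_eq_mul, RingHom.id_apply, mul_smul, ← smul_sub,
      mul_smul_comm]

theorem Rl_apply (hm : ∀ a, 0 < m a) (b : Fin r) (Y : Idx m → K) :
    Rl hm b Y = (1 - idem m b) * (toA Y - Y (z0 hm b) • (1 : Alg K m)) := rfl

theorem idem_sq (b : Fin r) : idem (K := K) m b * idem m b = idem m b := by
  unfold idem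
  rw [← map_mul, ← Pi.single_mul, mul_one]

theorem cst_eq_sum (t : Fin r → K) : cst m t = ∑ b, t b • idem m b := by
  unfold cst idem
  simp only [← map_smul]
  rw [← map_sum]
  congr 1
  funext a
  rw [Finset.sum_apply, Finset.sum_eq_single a]
  · simp [smul_eq_C_mul]
  · intro b _ hb; simp [Ne.symm hb]
  · simp

theorem cst_mul (s t : Fin r → K) : cst m s * cst m t = cst m (s * t) := by
  unfold cst
  rw [← map_mul]
  congr 1
  funext a
  simp

theorem divX_mul' (f g : K[X]) : divX (f * g) = divX f * C (g.coeff 0) + f * divX g := by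
  apply mul_left_cancel₀ (X_ne_zero (R := K))
  have h1 := X_mul_divX_add (f * g)
  have h2 := X_mul_divX_add f
  have h3 := X_mul_divX_add g
  rw [mul_coeff_zero, C_mul] at h1
  linear_combination h1 - C (g.coeff 0) * h2 - f * h3

theorem divX_X_pow_mul (n : ℕ) (hn : 0 < n) (h : K[X]) : divX (X ^ n * h) = X ^ (n - 1) * h := by
  apply mul_left_cancel₀ (X_ne_zero (R := K))
  have h1 := X_mul_divX_add (X ^ n * h)
  have h2 : (X ^ n * h).coeff 0 = 0 := by
    rw [mul_coeff_zero, coeff_X_pow, if_neg hn.ne, zero_mul]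
  rw [h2, C_0, add_zero] at h1
  rw [h1, ← mul_assoc, ← pow_succ', Nat.sub_add_cancel hn]

theorem rho_X_pow_mul (h : Fin r → K[X]) : rho m (fun a => X ^ m a * h a) = 0 := by
  rw [rho_eq_zero_iff]
  exact fun a => Dvd.intro _ rfl

theorem key_identities (hm : ∀ a, 0 < m a) (u Y : Idx m → K) : ∃ w : Alg K m,
    Pl (circ u Y) = (Pl u + cst m (fun a => (m a : K)) * soc m) * toA Y + toA u * Pl Y -
      cst m (fun a => (m a : K)) * soc m * w ∧
    Ql (circ u Y) = (Ql u + soc m) * cst m (fun a => Y (z0 hm a)) + toA u * Ql Y -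
      soc m * w := by
  let ut : Fin r → K[X] := fun a => lift u a + X ^ m a
  have hut : rho m ut = toA u := by
    have : ut = lift u + fun a => X ^ m a * (1 : Fin r → K[X]) a := by
      funext a; simp [ut]
    rw [this, map_add, rho_X_pow_mul, add_zero, rho_lift]
  have h0 : rho m (ut * lift Y - lift (circ u Y)) = 0 := by
    rw [map_sub, map_mul, hut, rho_lift, rho_lift, toA_circ, sub_self]
  rw [rho_eq_zero_iff] at h0
  choose h hh using h0
  have hh' : ∀ a, lift (circ u Y) a = ut a * lift Y a - X ^ m a * h a := by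
    intro a
    have := hh a
    simp only [Pi.sub_apply, Pi.mul_apply] at this
    linear_combination -this
  refine ⟨rho m h, ?_, ?_⟩
  · have e : (fun a => derivative (lift (circ u Y) a)) =
        ((fun a => derivative (lift u a)) + (fun a => C (m a : K)) * fun a => X ^ (m a - 1)) *
          lift Y + ut * (fun a => derivative (lift Y a)) -
          (fun a => C (m a : K)) * (fun a => X ^ (m a - 1)) * h -
          fun a => X ^ m a * derivative (h a) := by
      funext a
      simp only [hh', ut, Pi.sub_apply, Pi.add_apply, Pi.mul_apply, derivative_sub,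
        derivative_mul, derivative_add, derivative_X_pow]
      ring
    rw [Pl_apply, e]
    simp only [map_sub, map_add, map_mul, rho_X_pow_mul, hut, rho_lift, sub_zero]
    rfl
  · have e : (fun a => divX (lift (circ u Y) a)) =
        ((fun a => divX (lift u a)) + fun a => X ^ (m a - 1)) * (fun a => C (Y (z0 hm a))) +
          ut * (fun a => divX (lift Y a)) - (fun a => X ^ (m a - 1)) * h := by
      funext a
      have e1 : divX (ut a * lift Y a) = divX (lift (circ u Y) a) + divX (X ^ m a * h a) := by
        rw [← divX_add, hh', sub_add_cancel]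
      have e2 : divX (ut a) = divX (lift u a) + X ^ (m a - 1) := by
        have := divX_X_pow_mul (K := K) (m a) (hm a) 1
        rw [mul_one, mul_one] at this
        simp only [ut]
        rw [divX_add, this]
      rw [divX_mul', divX_X_pow_mul _ (hm a), e2, coeff_lift_zero hm] at e1
      simp only [Pi.sub_apply, Pi.add_apply, Pi.mul_apply]
      linear_combination -e1
    rw [Ql_apply, e]
    simp only [map_sub, map_add, map_mul, hut]
    rfl

theorem coeff_PQ (hm : ∀ a, 0 < m a) (u : Idx m → K) (a : Fin r) :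
    (derivative (lift u a) + C (m a : K) * X ^ (m a - 1)).coeff 0 =
      (divX (lift u a) + X ^ (m a - 1)).coeff 0 := by
  simp only [coeff_add, coeff_derivative, coeff_divX, coeff_C_mul, coeff_X_pow]
  split_ifs with h
  · have : m a = 1 := by have := hm a; omega
    simp [this]
  · simp

theorem P_eq (u : Idx m → K) : Pl u + cst m (fun a => (m a : K)) * soc m =
    rho m (fun a => derivative (lift u a) + C (m a : K) * X ^ (m a - 1)) := by
  rw [Pl_apply, cst, soc, ← map_mul, ← map_add]
  rfl

theorem Q_eq (u : Idx m → K) : Ql u + soc m =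
    rho m (fun a => divX (lift u a) + X ^ (m a - 1)) := by
  rw [Ql_apply, soc, ← map_add]
  rfl

theorem soc_PQ (hm : ∀ a, 0 < m a) (u : Idx m → K) :
    soc m * (Pl u + cst m (fun a => (m a : K)) * soc m) = soc m * (Ql u + soc m) := by
  rw [P_eq, Q_eq, soc, ← sub_eq_zero, ← mul_sub, ← map_sub, ← map_mul, rho_eq_zero_iff]
  intro a
  simp only [Pi.mul_apply, Pi.sub_apply]
  have e : (X : K[X]) ^ m a = X ^ (m a - 1) * X := by
    rw [← pow_succ, Nat.sub_add_cancel (hm a)]
  rw [e]
  refine mul_dvd_mul_left _ ?_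
  rw [X_dvd_iff, coeff_sub, coeff_PQ hm, sub_self]

theorem isUnit_Q (hm : ∀ a, 0 < m a) (u : Idx m → K) (h : ExplReg hm u) :
    ∀ a, (divX (lift u a) + X ^ (m a - 1)).coeff 0 ≠ 0 := by
  intro a
  simp only [coeff_add, coeff_divX, coeff_X_pow, zero_add]
  split_ifs with h1
  · have h2 : (lift u a).coeff 1 = 0 := by
      unfold lift
      rw [finsetSum_coeff]
      refine Finset.sum_eq_zero fun j _ => ?_
      rw [coeff_monomial, if_neg]
      have := j.2
      omega
    rw [h2]; simp
  · have h2 : 1 < m a := by omega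
    have := coeff_lift u a ⟨1, h2⟩
    simp only at this
    rw [this, add_zero]
    exact h.2 ⟨a, ⟨1, h2⟩⟩ rfl

theorem isUnit_R (hm : ∀ a, 0 < m a) (u : Idx m → K) (h : ExplReg hm u) (b : Fin r) :
    IsUnit (Rl hm b u + idem m b) := by
  have e : Rl hm b u + idem m b = rho m ((1 - Pi.single b 1) *
      (lift u - u (z0 hm b) • (1 : Fin r → K[X])) + Pi.single b 1) := by
    rw [Rl_apply, map_add, map_mul, map_sub, map_sub, map_smul, map_one, rho_lift]
    rfl
  rw [e]
  refine isUnit_rho _ fun a => ?_
  by_cases hab : a = b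
  · subst hab; simp
  · simp only [Pi.add_apply, Pi.mul_apply, Pi.sub_apply, Pi.single_eq_of_ne hab, Pi.one_apply,
      sub_zero, one_mul, add_zero, Pi.smul_apply, coeff_sub, coeff_lift_zero hm, coeff_smul,
      coeff_one_zero, smul_eq_mul, mul_one, sub_ne_zero]
    exact h.1 a b hab

/-- coefficients -/
noncomputable def ka (m : Fin r → ℕ) (eps : Fin r → K) : Bool ⊕ Fin r → Alg K m
  | .inl true => 2 * cst m eps
  | .inl false => -(2 * cst m eps * cst m (fun a => (m a : K)))
  | .inr b => -((2 * ((m b : K) * eps b)) • (1 : Alg K m))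

/-- linear parts -/
noncomputable def ll (hm : ∀ a, 0 < m a) : Bool ⊕ Fin r → ((Idx m → K) →ₗ[K] Alg K m)
  | .inl true => Pl
  | .inl false => Ql
  | .inr b => Rl hm b

/-- constant parts -/
noncomputable def kk (K : Type) [RCLike K] (m : Fin r → ℕ) : Bool ⊕ Fin r → Alg K m
  | .inl true => cst m (fun a => (m a : K)) * soc m
  | .inl false => soc m
  | .inr b => idem m b

theorem isUnit_ll (hm : ∀ a, 0 < m a) (u : Idx m → K) (h : ExplReg hm u) (t : Bool ⊕ Fin r) :
    IsUnit (ll hm t u + kk K m t) := by
  rcases t with (_ | _) | b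
  · simp only [ll, kk]
    rw [Q_eq]
    exact isUnit_rho _ (isUnit_Q hm u h)
  · simp only [ll, kk]
    rw [P_eq]
    exact isUnit_rho _ fun a => by rw [coeff_PQ hm]; exact isUnit_Q hm u h a
  · exact isUnit_R hm u h b

/-- The one form. -/
noncomputable def beta (hm : ∀ a, 0 < m a) (eps : Fin r → K) (u : Idx m → K) :
    Alg K m →ₗ[K] Alg K m :=
  ∑ t, (LinearMap.mulLeft K (ka m eps t * Ring.inverse (ll hm t u + kk K m t))) ∘ₗ ll hm t ∘ₗ
    (toA (K := K) (m := m)).symm.toLinearEquiv.toLinearMap

theorem beta_apply (hm : ∀ a, 0 < m a) (eps : Fin r → K) (u Y : Idx m → K) :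
    beta hm eps u (toA Y) = ∑ t, ka m eps t * ll hm t Y * Ring.inverse (ll hm t u + kk K m t) := by
  simp only [beta, LinearMap.sum_apply, LinearMap.comp_apply, LinearMap.mulLeft_apply,
    LinearEquiv.coe_coe, ContinuousLinearEquiv.coe_toLinearEquiv,
    ContinuousLinearEquiv.symm_apply_apply]
  exact Finset.sum_congr rfl fun t _ => by ring

theorem lift_unit (hm : ∀ a, 0 < m a) : lift (unitField : Idx m → K) = 1 := by
  funext a
  unfold lift
  rw [Finset.sum_eq_single ⟨0, hm a⟩]
  · simp [unitField]
  · intro b _ hb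
    have : (b : ℕ) ≠ 0 := fun h => hb (Fin.ext h)
    simp [unitField, this]
  · simp

theorem beta_one (hm : ∀ a, 0 < m a) (eps : Fin r → K) (u : Idx m → K) :
    beta hm eps u 1 = 0 := by
  rw [← toA_unit, beta_apply]
  refine Finset.sum_eq_zero fun t _ => ?_
  have : ll hm t (unitField : Idx m → K) = 0 := by
    rcases t with (_ | _) | b
    · simp only [ll]
      rw [Ql_apply, lift_unit hm, ← map_zero (rho m)]
      congr 1
      funext a
      simp [divX_one]
    · simp only [ll]
      rw [Pl_apply, lift_unit hm, ← map_zero (rho m)]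
      congr 1
      funext a
      simp
    · simp only [ll]
      rw [Rl_apply, toA_unit]
      simp [unitField]
  rw [this, mul_zero, zero_mul]

theorem circ_z0 (hm : ∀ a, 0 < m a) (u Y : Idx m → K) (b : Fin r) :
    circ u Y (z0 hm b) = u (z0 hm b) * Y (z0 hm b) := by
  conv_lhs => rw [← trunc_lift u, ← trunc_lift Y, ← trunc_mul]
  simp only [trunc, Pi.mul_apply, mul_coeff_zero, coeff_lift_zero hm]

theorem beta_comm (hm : ∀ a, 0 < m a) (eps : Fin r → K) (u : Idx m → K) (h : ExplReg hm u)
    (Y : Idx m → K) :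
    beta hm eps u (toA u * toA Y) - toA u * beta hm eps u (toA Y) =
      2 * cst m eps * toA Y - (2 * ∑ b, (m b : K) * eps b * Y (z0 hm b)) • (1 : Alg K m) := by
  rw [← toA_circ, beta_apply, beta_apply, Finset.mul_sum, ← Finset.sum_sub_distrib,
    Fintype.sum_sum_type, Fintype.sum_bool]
  obtain ⟨w, h1, h2⟩ := key_identities hm u Y
  have uP := Ring.mul_inverse_cancel _ (isUnit_ll hm u h (.inl true))
  have uQ := Ring.mul_inverse_cancel _ (isUnit_ll hm u h (.inl false))
  have hs := soc_PQ hm u
  have hR : ∀ b, ka m eps (.inr b) * ll hm (.inr b) (circ u Y) *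
        Ring.inverse (ll hm (.inr b) u + kk K m (.inr b)) -
      toA u * (ka m eps (.inr b) * ll hm (.inr b) Y *
        Ring.inverse (ll hm (.inr b) u + kk K m (.inr b))) =
      (2 * ((m b : K) * eps b * Y (z0 hm b))) • idem m b -
        (2 * ((m b : K) * eps b * Y (z0 hm b))) • (1 : Alg K m) := by
    intro b
    have uR := Ring.mul_inverse_cancel _ (isUnit_ll hm u h (.inr b))
    have hi := idem_sq (K := K) (m := m) b
    simp only [ka, ll, kk, Rl_apply] at uR ⊢
    rw [circ_z0, toA_circ]
    generalize Ring.inverse ((1 - idem m b) * (toA u - u (z0 hm b) • (1 : Alg K m)) +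
      idem m b) = q at uR ⊢
    simp only [Algebra.smul_def, map_mul, mul_one, map_ofNat] at uR ⊢
    generalize algebraMap K (Alg K m) (m b : K) = c1 at *
    generalize algebraMap K (Alg K m) (eps b) = c2 at *
    generalize algebraMap K (Alg K m) (Y (z0 hm b)) = c3 at *
    generalize algebraMap K (Alg K m) (u (z0 hm b)) = c4 at *
    linear_combination (-(2 * c1 * c2 * c3) * (1 - idem m b)) * uR +
      (2 * c1 * c2 * c3 * q * (toA u - c4 - 1)) * hi
  simp only [hR]
  rw [Finset.sum_sub_distrib, ← Finset.sum_smul, ← Finset.mul_sum]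
  have e3 : ∑ b, (2 * ((m b : K) * eps b * Y (z0 hm b))) • idem m b =
      2 * cst m eps * cst m (fun a => (m a : K)) * cst m (fun a => Y (z0 hm a)) := by
    rw [mul_assoc, mul_assoc, cst_mul, cst_mul, cst_eq_sum, Finset.mul_sum]
    refine Finset.sum_congr rfl fun b _ => ?_
    simp only [Pi.mul_apply, Algebra.smul_def, map_mul, map_ofNat]
    ring
  rw [e3]
  simp only [ka, ll, kk] at uP uQ ⊢
  rw [h1, h2]
  generalize Ring.inverse (Pl u + cst m (fun a => (m a : K)) * soc m) = p at uP ⊢
  generalize Ring.inverse (Ql u + soc m) = q at uQ ⊢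
  have hpq : soc m * p = soc m * q := by
    linear_combination (-(p * q)) * hs + (soc m * q) * uP - (soc m * p) * uQ
  linear_combination (2 * cst m eps * toA Y) * uP -
    (2 * cst m eps * cst m (fun a => (m a : K)) * cst m (fun a => Y (z0 hm a))) * uQ -
    (2 * cst m eps * cst m (fun a => (m a : K)) * w) * hpq

end Pool.Agent.Lib.MP_cfa256_gt
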