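import Mathlib

/-!
Local solutions of logarithmic derivative equations in a commutative Banach algebra.
-/

set_option autoImplicit false

namespace Pool.Agent.Lib.MP_cfa256_gt

open Filter Topology NormedSpace
open scoped ContDiff

variable {K A V : Type*} [RCLike K] [NormedCommRing A] [NormedAlgebra K A] [CompleteSpace A]
  [NormedAddCommGroup V] [NormedSpace K V]

include K in
theorem isUnit_exp' (x : A) : IsUnit (exp x) :=
  isUnit_exp_of_mem_ball (𝕂 := K) ((expSeries_radius_eq_top K A).symm ▸ edist_lt_top _ _)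

theorem exists_log : ∃ lg : A → A, ContDiffAt K ω lg 1 ∧
    ∀ᶠ y in 𝓝 (1 : A), IsUnit y ∧ DifferentiableAt K lg y ∧
      ∀ h, fderiv K lg y h = Ring.inverse y * h := by
  have h1 : ContDiffAt K ω (exp : A → A) 0 := (exp_analytic (𝕂 := K) (0 : A)).contDiffAt
  have h2 : HasFDerivAt (exp : A → A)
      ((ContinuousLinearEquiv.refl K A : A ≃L[K] A) : A →L[K] A) 0 := hasFDerivAt_exp_zero
  have h3 := h1.to_localInverse h2 (by simp)
  rw [exp_zero] at h3
  refine ⟨h1.localInverse h2 (by simp), h3, ?_⟩
  have h4 := (h1.hasStrictFDerivAt' h2 (by simp)).eventually_right_inverse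
  rw [exp_zero] at h4
  set lg := h1.localInverse h2 (by simp) with hlg
  have h5 : ∀ᶠ y in 𝓝 (1 : A), exp (lg y) = y := h4
  have h6 := h3.eventually (by simp)
  filter_upwards [h5.eventually_nhds, h6] with y hy hd
  have hu : IsUnit y := by
    rw [← hy.self_of_nhds]; exact isUnit_exp' (K := K) _
  have hdiff : DifferentiableAt K lg y := hd.differentiableAt (by simp)
  refine ⟨hu, hdiff, fun h => ?_⟩
  have h7 : HasFDerivAt (fun z => exp (lg z))
      ((exp (lg y) • (1 : A →L[K] A)).comp (fderiv K lg y)) y :=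
    hasFDerivAt_exp.comp y hdiff.hasFDerivAt
  have h8 : HasFDerivAt (fun z => exp (lg z)) (ContinuousLinearMap.id K A) y :=
    (hasFDerivAt_id y).congr_of_eventuallyEq hy
  have h9 := congrArg (fun T : A →L[K] A => T h) (h7.unique h8)
  simp only [ContinuousLinearMap.comp_apply, _root_.smul_apply,
    one_apply_eq_self, ContinuousLinearMap.id_apply, smul_eq_mul,
    hy.self_of_nhds] at h9
  rw [← h9, ← mul_assoc, Ring.inverse_mul_cancel _ hu, one_mul, h9]

theorem exists_potential {T : Type*} [Fintype T] (ka : T → A) (l : T → V →L[K] A) (k : T → A)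
    (p : V) (hp : ∀ t, IsUnit (l t p + k t)) :
    ∃ G : V → A, ContDiffAt K ω G p ∧ ∀ᶠ u in 𝓝 p, IsUnit (G u) ∧ (∀ t, IsUnit (l t u + k t)) ∧
      ∀ X, fderiv K G u X = G u * ∑ t, ka t * l t X * Ring.inverse (l t u + k t) := by
  obtain ⟨lg, hlg, hev⟩ := exists_log (K := K) (A := A)
  let y : T → V → A := fun t u => Ring.inverse (l t p + k t) * (l t u + k t)
  have hy1 : ∀ t, y t p = 1 := fun t => Ring.inverse_mul_cancel _ (hp t)
  have hyd : ∀ t u, HasFDerivAt (y t) (Ring.inverse (l t p + k t) • l t) u := fun t u =>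
    ((l t).hasFDerivAt.add_const (k t)).const_mul _
  have hyc : ∀ t, ContDiff K ω (y t) := fun t =>
    contDiff_const.mul ((l t).contDiff.add contDiff_const)
  refine ⟨fun u => exp (∑ t, ka t * lg (y t u)), ?_, ?_⟩
  · refine (exp_analytic (𝕂 := K) _).contDiffAt.comp p ?_
    refine ContDiffAt.sum fun t _ => contDiffAt_const.mul ?_
    exact ContDiffAt.comp p (by rw [hy1]; exact hlg) (hyc t).contDiffAt
  · have h1 : ∀ᶠ u in 𝓝 p, ∀ t, IsUnit (y t u) ∧ DifferentiableAt K lg (y t u) ∧
        ∀ h, fderiv K lg (y t u) h = Ring.inverse (y t u) * h := by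
      rw [eventually_all]
      intro t
      have : Tendsto (y t) (𝓝 p) (𝓝 1) := by
        rw [← hy1 t]; exact (hyc t).continuous.continuousAt
      exact this.eventually hev
    filter_upwards [h1] with u hu
    have hun : ∀ t, IsUnit (l t u + k t) := fun t => isUnit_of_mul_isUnit_right (hu t).1
    refine ⟨isUnit_exp' (K := K) _, hun, fun X => ?_⟩
    have h2 : HasFDerivAt (fun u => ∑ t, ka t * lg (y t u))
        (∑ t, ka t • ((fderiv K lg (y t u)).comp (Ring.inverse (l t p + k t) • l t))) u :=
      HasFDerivAt.fun_sum fun t _ => ((hu t).2.1.hasFDerivAt.comp u (hyd t u)).const_mul _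
    have h3 := (hasFDerivAt_exp (𝕂 := K)).comp u h2
    have h4 : fderiv K (fun u => exp (∑ t, ka t * lg (y t u))) u = _ := h3.fderiv
    rw [h4]
    simp only [ContinuousLinearMap.comp_apply, _root_.smul_apply,
      one_apply_eq_self, smul_eq_mul, _root_.sum_apply]
    congr 1
    refine Finset.sum_congr rfl fun t _ => ?_
    rw [(hu t).2.2]
    have h5 : Ring.inverse (y t u) * Ring.inverse (l t p + k t) = Ring.inverse (l t u + k t) := by
      have a1 := Ring.inverse_mul_cancel _ (hu t).1
      have a2 := Ring.mul_inverse_cancel _ (hun t)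
      simp only [y] at a1 ⊢
      linear_combination Ring.inverse (l t u + k t) * a1 -
        Ring.inverse (Ring.inverse (l t p + k t) * (l t u + k t)) *
          Ring.inverse (l t p + k t) * a2
    rw [← h5]
    ring

end Pool.Agent.Lib.MP_cfa256_gt
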