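import Mathlib
import Pool.Agent.Lib.MP_cfa256_gt.Beta
import Pool.Agent.Lib.MP_cfa256_gt.Log
import Pool.Agent.Lib.MP_cfa256_gt.Abstract

/-!
Existence of the connection, and the two implications of the main theorem.
-/

set_option autoImplicit false

namespace Pool.Agent.Lib.MP_cfa256_gt

open Filter Topology
open scoped ContDiff

variable {K : Type} [RCLike K] {r : ℕ} {m : Fin r → ℕ}

noncomputable def linL (c : Idx m → K) : (Idx m → K) →ₗ[K] K where
  toFun := lin c
  map_add' X Y := by simp [lin, mul_add, Finset.sum_add_distrib]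
  map_smul' t X := by simp [lin, Finset.mul_sum, mul_left_comm]

noncomputable def eA : (Idx m → K) ≃ₗ[K] Alg K m := (toA (K := K) (m := m)).toLinearEquiv

noncomputable def aL (c : Idx m → K) : Alg K m →ₗ[K] K := linL c ∘ₗ eA.symm.toLinearMap

theorem aL_apply (c X : Idx m → K) : aL c (toA X) = lin c X := by
  simp [aL, eA, linL]

noncomputable def GA (G : (Idx m → K) →ₗ[K] (Idx m → K) →ₗ[K] (Idx m → K)) :
    Alg K m →ₗ[K] Alg K m →ₗ[K] Alg K m :=
  (G.compl₁₂ eA.symm.toLinearMap eA.symm.toLinearMap).compr₂ eA.toLinearMap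

theorem GA_apply (G : (Idx m → K) →ₗ[K] (Idx m → K) →ₗ[K] (Idx m → K)) (X Y : Idx m → K) :
    GA G (toA X) (toA Y) = toA (G X Y) := by
  simp [GA, eA]

theorem GA_surj (G' : Alg K m →ₗ[K] Alg K m →ₗ[K] Alg K m) : ∃ G, GA G = G' := by
  refine ⟨(G'.compl₁₂ eA.toLinearMap eA.toLinearMap).compr₂ eA.symm.toLinearMap, ?_⟩
  ext X Y
  simp [GA]

theorem fderiv_shifted (c u X Y : Idx m → K) :
    fderiv K (fun v => shiftedEuler c v Y) u X = circ (X - lin c X • unitField) Y := by
  let T : (Idx m → K) →ₗ[K] (Idx m → K) :=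
    { toFun := fun v => shiftedEuler c v Y
      map_add' := fun v w => by
        apply (toA (K := K) (m := m)).injective
        have : lin c (v + w) = lin c v + lin c w := (linL c).map_add v w
        simp only [shiftedEuler, toA_circ, map_add, map_sub, map_smul, this, add_smul]
        ring
      map_smul' := fun t v => by
        apply (toA (K := K) (m := m)).injective
        have : lin c (t • v) = t * lin c v := (linL c).map_smul t v
        simp only [shiftedEuler, toA_circ, map_sub, map_smul, this, RingHom.id_apply, mul_smul,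
          ← smul_sub, smul_mul_assoc] }
  have h := (LinearMap.toContinuousLinearMap T).fderiv (x := u)
  have e : (fun v => shiftedEuler c v Y) = ⇑(LinearMap.toContinuousLinearMap T) := rfl
  rw [e, h]
  rfl

theorem isNabla_iff (c : Idx m → K)
    (G : (Idx m → K) → (Idx m → K) →ₗ[K] (Idx m → K) →ₗ[K] (Idx m → K)) (u : Idx m → K) :
    IsNabla c G u ↔ NatEq (aL c) (toA (u - lin c u • unitField)) (GA (G u)) := by
  have e3 : ∀ X Y, toA (covEnd G (shiftedEuler c) u X Y) =
      toA X * toA Y - aL c (toA X) • toA Y +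
        GA (G u) (toA X) (toA (u - lin c u • unitField) * toA Y) -
        toA (u - lin c u • unitField) * GA (G u) (toA X) (toA Y) := by
    intro X Y
    rw [covEnd, fderiv_shifted, ← toA_circ (u - lin c u • unitField) Y, GA_apply, GA_apply,
      ← toA_circ (u - lin c u • unitField), aL_apply, map_sub, map_add, toA_circ, map_sub,
      map_smul, toA_unit, sub_mul, smul_mul_assoc, one_mul]
    rfl
  constructor
  · rintro ⟨h1, h2, h3⟩
    refine ⟨fun X Y => ?_, fun X => ?_, fun X Y => ?_⟩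
    · obtain ⟨X, rfl⟩ := (toA (K := K) (m := m)).surjective X
      obtain ⟨Y, rfl⟩ := (toA (K := K) (m := m)).surjective Y
      rw [GA_apply, GA_apply, h1]
    · obtain ⟨X, rfl⟩ := (toA (K := K) (m := m)).surjective X
      rw [← toA_unit, GA_apply, h2, map_zero]
    · obtain ⟨X, rfl⟩ := (toA (K := K) (m := m)).surjective X
      obtain ⟨Y, rfl⟩ := (toA (K := K) (m := m)).surjective Y
      have h := congrArg toA (h3 X Y)
      rw [map_sub, e3, e3, map_zero, GA_apply (G u) X Y, GA_apply (G u) Y X, h1 Y X] at h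
      linear_combination h
  · rintro ⟨h1, h2, h3⟩
    refine ⟨fun X Y => ?_, fun X => ?_, fun X Y => ?_⟩
    · apply (toA (K := K) (m := m)).injective
      rw [← GA_apply, ← GA_apply, h1]
    · apply (toA (K := K) (m := m)).injective
      rw [← GA_apply, toA_unit, h2, map_zero]
    · apply (toA (K := K) (m := m)).injective
      rw [map_sub, e3, e3, map_zero, h1 (toA Y) (toA X)]
      linear_combination h3 (toA X) (toA Y)

theorem exists_nabla (hm : ∀ a, 0 < m a) (p : Idx m → K) (hp : Regular p) (c : Idx m → K) :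
    ∃ G, ∀ᶠ u in 𝓝 p, IsNabla c G u := by
  have h1 : ∀ u : Idx m → K, ExplReg hm u →
      ∃ G : (Idx m → K) →ₗ[K] (Idx m → K) →ₗ[K] (Idx m → K),
        NatEq (aL c) (toA (u - lin c u • unitField)) (GA G) := by
    intro u hu
    obtain ⟨G', hG'⟩ := existence (aL c) _ (adjoin_sub_eq_top hm u hu (lin c u))
    obtain ⟨G, rfl⟩ := GA_surj G'
    exact ⟨G, hG'⟩
  choose! G hG using h1
  refine ⟨G, ?_⟩
  filter_upwards [explReg_eventually hm p (explReg_of_regular hm p hp)] with u hu
  exact (isNabla_iff c G u).mpr (hG u hu)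

theorem inv_eq {b : (Idx m → K) →ₗ[K] (Idx m → K) →ₗ[K] K} (h : IsInvMetric b)
    (Y Z : Idx m → K) : b Y Z = b unitField (circ Y Z) := by
  have := h.2.2 Y unitField Z
  rw [circ_unit] at this
  rw [this, h.1]

theorem only_main (hm : ∀ a, 0 < m a) (p c : Idx m → K)
    (G : (Idx m → K) → (Idx m → K) →ₗ[K] (Idx m → K) →ₗ[K] (Idx m → K)) (hG : IsNabla c G p)
    (U : Set (Idx m → K)) (hU : IsOpen U) (hp : p ∈ U)
    (g : (Idx m → K) → (Idx m → K) →ₗ[K] (Idx m → K) →ₗ[K] K)
    (hg : ∀ Y Z, ContDiffOn K ∞ (fun v => g v Y Z) U)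
    (h : ∀ u ∈ U, IsInvMetric (g u) ∧ Star G g u) :
    ∃ eps : Fin r → K, ∀ u, lin c u = ∑ a, (m a : K) * eps a * u ⟨a, ⟨0, hm a⟩⟩ := by
  have hd : ∀ Y Z, DifferentiableAt K (fun v => g v Y Z) p := fun Y Z =>
    ((hg Y Z).contDiffAt (hU.mem_nhds hp)).differentiableAt (by simp)
  let th : Alg K m →ₗ[K] K := g p unitField ∘ₗ eA.symm.toLinearMap
  have hth : ∀ X, th (toA X) = g p unitField X := by
    intro X; simp [th, eA]
  let B : Alg K m →ₗ[K] Alg K m →ₗ[K] K := LinearMap.mk₂ K
    (fun X Y => fderiv K (fun v => g v unitField (toA.symm Y)) p (toA.symm X))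
    (fun X X' Y => by simp only [map_add])
    (fun t X Y => by simp only [map_smul])
    (fun X Y Y' => by
      simp only [map_add]
      rw [fderiv_fun_add (hd _ _) (hd _ _)]
      rfl)
    (fun t X Y => by
      simp only [map_smul]
      rw [fderiv_fun_const_smul (hd _ _)]
      rfl)
  have hB : ∀ X Y, B (toA X) (toA Y) = fderiv K (fun v => g v unitField Y) p X := by
    intro X Y
    simp [B]
  have hinv := (h p hp).1
  have hnd : ∀ X, (∀ Y, th (X * Y) = 0) → X = 0 := by
    intro X hX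
    obtain ⟨X, rfl⟩ := (toA (K := K) (m := m)).surjective X
    rw [hinv.2.1 X fun Y => ?_, map_zero]
    rw [inv_eq hinv, ← hth, toA_circ, hX]
  have hS : StarEq th (fun X Y => B X Y) (GA (G p)) := by
    intro X Y Z
    obtain ⟨X, rfl⟩ := (toA (K := K) (m := m)).surjective X
    obtain ⟨Y, rfl⟩ := (toA (K := K) (m := m)).surjective Y
    obtain ⟨Z, rfl⟩ := (toA (K := K) (m := m)).surjective Z
    have h1 := (h p hp).2 X Y Z
    have h2 : (fun v => g v Y Z) =ᶠ[𝓝 p] fun v => g v unitField (circ Y Z) := by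
      filter_upwards [hU.mem_nhds hp] with v hv using inv_eq (h v hv).1 Y Z
    simp only [covMetric, dTheta] at h1
    rw [h2.fderiv_eq, inv_eq hinv (G p X Y), inv_eq hinv Y] at h1
    simp only [GA_apply, ← toA_circ, hB, hth]
    exact h1
  have hc : ∀ i : Idx m, (i.2 : ℕ) ≠ 0 → c i = 0 := by
    intro i hi
    have h1 := necessity (aL c) th _ (GA (G p)) B hnd ((isNabla_iff c G p).mp hG) hS
      (toA (Pi.single i 1)) (by
        rw [← rho_lift]
        refine isNilpotent_rho _ fun a => ?_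
        rw [coeff_lift_zero hm, Pi.single_eq_of_ne]
        rintro rfl
        exact hi rfl)
    rw [aL_apply, lin, Finset.sum_eq_single i] at h1
    · simpa using h1
    · intro b _ hb; simp [hb]
    · simp
  refine ⟨fun a => c ⟨a, ⟨0, hm a⟩⟩ / (m a : K), fun u => ?_⟩
  rw [lin, Fintype.sum_sigma]
  refine Finset.sum_congr rfl fun a _ => ?_
  rw [Finset.sum_eq_single ⟨0, hm a⟩]
  · have : (m a : K) ≠ 0 := Nat.cast_ne_zero.mpr (hm a).ne'
    field_simp
  · intro b _ hb
    rw [hc ⟨a, b⟩ (fun h0 => hb (Fin.ext h0)), zero_mul]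
  · simp

theorem exists_metric (hm : ∀ a, 0 < m a) (p : Idx m → K) (hp : Regular p) (c : Idx m → K)
    (G : (Idx m → K) → (Idx m → K) →ₗ[K] (Idx m → K) →ₗ[K] (Idx m → K))
    (hG : ∀ᶠ u in 𝓝 p, IsNabla c G u) (eps : Fin r → K)
    (heps : ∀ u, lin c u = ∑ a, (m a : K) * eps a * u ⟨a, ⟨0, hm a⟩⟩) :
    ∃ U : Set (Idx m → K), IsOpen U ∧ p ∈ U ∧
      ∃ g : (Idx m → K) → (Idx m → K) →ₗ[K] (Idx m → K) →ₗ[K] K,
        (∀ Y Z, ContDiffOn K ∞ (fun v => g v Y Z) U) ∧
        ∀ u ∈ U, IsInvMetric (g u) ∧ Star G g u := by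
  have hp' := explReg_of_regular hm p hp
  obtain ⟨F, hF, hev⟩ := exists_potential (K := K) (ka m eps)
    (fun t => LinearMap.toContinuousLinearMap (ll hm t)) (kk K m) p (isUnit_ll hm p hp')
  obtain ⟨U, hU, hUo, hpU⟩ := eventually_nhds_iff.mp
    (((hev.and (hF.eventually (by simp))).and hG).and (explReg_eventually hm p hp'))
  let g : (Idx m → K) → (Idx m → K) →ₗ[K] (Idx m → K) →ₗ[K] K := fun u =>
    ((LinearMap.mul K (Alg K m)).compl₁₂ eA.toLinearMap eA.toLinearMap).compr₂
      ((tau hm).toLinearMap ∘ₗ LinearMap.mulLeft K (F u))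
  have hg : ∀ u X Y, g u X Y = tau hm (F u * (toA X * toA Y)) := fun u X Y => rfl
  refine ⟨U, hUo, hpU, g, fun Y Z v hv => ?_, fun u hu => ⟨⟨fun X Y => ?_, fun X hX => ?_,
    fun X Y Z => ?_⟩, ?_⟩⟩
  · simp only [hg]
    have h1 : ContDiffAt K ∞ F v := (hU v hv).1.1.2.of_le le_top
    exact ((tau hm).contDiff.contDiffAt.comp v (h1.mul contDiffAt_const)).contDiffWithinAt
  · rw [hg, hg, mul_comm (toA X)]
  · have h1 := tau_nondeg hm (F u * toA X) fun Y => by
      obtain ⟨Y, rfl⟩ := (toA (K := K) (m := m)).surjective Y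
      rw [mul_assoc, ← hg, hX]
    rw [(hU u hu).1.1.1.1.mul_right_eq_zero] at h1
    exact (map_eq_zero_iff _ toA.injective).mp h1
  · rw [hg, hg, toA_circ, toA_circ, mul_right_comm]
  · obtain ⟨⟨⟨⟨-, -, hder⟩, hcd⟩, hN⟩, hreg⟩ := hU u hu
    have hdF : HasFDerivAt F (fderiv K F u) u := (hcd.differentiableAt (by simp)).hasFDerivAt
    let th : Alg K m →ₗ[K] K := (tau hm).toLinearMap ∘ₗ LinearMap.mulLeft K (F u)
    have hth : ∀ Z, th Z = tau hm (F u * Z) := fun Z => rfl
    have hfd : ∀ X Y Z, fderiv K (fun v => g v Y Z) u X =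
        th (beta hm eps u (toA X) * (toA Y * toA Z)) := by
      intro X Y Z
      simp only [hg]
      have h1 := (tau hm).hasFDerivAt.comp u (hdF.mul_const' (toA Y * toA Z))
      have h2 : fderiv K (fun v => tau hm (F v * (toA Y * toA Z))) u = _ := h1.fderiv
      rw [h2, hth, beta_apply, ← mul_assoc]
      simp only [ContinuousLinearMap.comp_apply, _root_.smul_apply, hder X,
        LinearMap.coe_toContinuousLinearMap', op_smul_eq_mul]
    have hcob : GA (G u) = cob (beta hm eps u) := by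
      refine uniqueness (aL c) _ (adjoin_sub_eq_top hm u hreg (lin c u)) _ _
        ((isNabla_iff c G u).mp hN) ?_
      refine natEq_cob _ _ (2 * cst m eps) _ (beta_one hm eps u) fun Y => ?_
      obtain ⟨Y, rfl⟩ := (toA (K := K) (m := m)).surjective Y
      rw [aL_apply, heps Y, ← beta_comm hm eps u hreg Y, map_sub, map_smul, toA_unit, sub_mul,
        sub_mul, smul_mul_assoc, smul_mul_assoc, one_mul, one_mul, map_sub, map_smul]
      ring
    intro X Y Z
    have h3 := starEq_cob th (beta hm eps u) (toA X) (toA Y) (toA Z)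
    simp only [covMetric, dTheta, hfd]
    simp only [hg, toA_unit, one_mul, toA_circ, ← GA_apply, hcob, ← hth]
    exact h3

end Pool.Agent.Lib.MP_cfa256_gt
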